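import Mathlib

/-!
# Rapid decay: definitions (helper63)
-/

set_option autoImplicit false

namespace Pool.Agent.TH63.RD

variable {G : Type*} [Group G]

/-- the squared norm of a finitely supported function -/
noncomputable def sq (f : MonoidAlgebra ℝ G) : ℝ := ∑ x ∈ f.coeff.support, f.coeff x ^ 2

/-- the rapid decay inequality for the length `ℓ`, at radius `r`, with constant `K` -/
def RDB (ℓ : G → ℕ) (r : ℕ) (K : ℝ) : Prop :=
  ∀ f g : MonoidAlgebra ℝ G, (∀ x ∈ f.coeff.support, ℓ x ≤ r) → sq (f * g) ≤ K * sq f * sq g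

end Pool.Agent.TH63.RD
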