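import Pool.Agent.TH63.RD.Step
import Pool.Agent.TH63.RD.X429.RDLim
import Pool.Agent.TH31.RDThree
import Pool.Agent.TH31.RDAsm
import Pool.Agent.TH444.RD5

/-!
# An infinite finitely generated torsion group with rapid decay (helper63)
-/

set_option autoImplicit false

open scoped Pointwise

namespace Pool.Agent.TH63.RD

open Pool.Agent.TH64 Pool.Agent.TH63.RD.X429.RDLim Pool.Agent.TH31.RD Pool.Agent.TH444.RD5

theorem main :
    ∃ (G : Type) (_ : Group G), Infinite G ∧ Monoid.IsTorsion G ∧
      ∃ S : Finset G, Subgroup.closure (S : Set G) = ⊤ ∧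
        ∃ C s : ℝ, ∀ n : ℕ, ∀ f g : G →₀ ℝ,
          (f.support : Set G) ⊆ ((S : Set G) ∪ (S : Set G)⁻¹ ∪ {1}) ^ n →
            ∀ F : Finset G,
              ∑ x ∈ F, (∑ y ∈ f.support, f y * g (y⁻¹ * x)) ^ 2 ≤
                C * (1 + (n : ℝ)) ^ s * (∑ y ∈ f.support, f y ^ 2) *
                  (∑ z ∈ g.support, g z ^ 2) := by
  classical
  obtain ⟨E0, hE0, hbase⟩ := rd_hyp FreeBase.freeHyp
  obtain ⟨R, Ri, hRi, hmono, hmem, hlev, hinf, htor⟩ := asm stepG E0 hE0 hbase GS_three
  refine ⟨FreeGroup (Fin 2) ⧸ Ri, inferInstance, hinf, htor, ?_⟩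
  have hlim : ∀ r : ℕ, RDB (FreeBase.freeHyp.qlen Ri) r (2 * E0 * (1 + r) ^ 7) := by
    intro r
    refine rd_lim (QuotientGroup.mk' Ri) FreeGroup.norm (FreeBase.freeHyp.qlen Ri) ?_ r _ ?_
    · intro q
      obtain ⟨g, hg, hl⟩ := FreeBase.freeHyp.qlen_rep Ri q
      exact ⟨g, hg, hl.le⟩
    · intro T
      -- a level containing all the relations of `T`
      obtain ⟨j, hj⟩ : ∃ j, ∀ g ∈ T, g ∈ Ri → g ∈ R j := by
        induction T using Finset.induction_on with
        | empty => exact ⟨0, fun g hg => absurd hg (Finset.notMem_empty g)⟩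
        | insert a T _ ih =>
          obtain ⟨j, hj⟩ := ih
          by_cases ha : a ∈ Ri
          · obtain ⟨i, hi⟩ := (hmem a).1 ha
            refine ⟨max i j, ?_⟩
            intro g hg hgR
            rcases Finset.mem_insert.1 hg with rfl | hg
            · exact hmono (le_max_left _ _) hi
            · exact hmono (le_max_right _ _) (hj g hg hgR)
          · refine ⟨j, ?_⟩
            intro g hg hgR
            rcases Finset.mem_insert.1 hg with rfl | hg
            · exact absurd hgR ha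
            · exact hj g hg hgR
      obtain ⟨Q, _, ψ, H, hker, hlen, hrd⟩ := hlev j
      refine ⟨Q, inferInstance, ψ, H.len, hlen, hrd r, ?_, ?_⟩
      · intro g hg
        exact (QuotientGroup.eq_one_iff g).2 ((hmem g).2 ⟨j, (hker g).1 hg⟩)
      · intro g hg hg1
        exact (hker g).2 (hj g hg ((QuotientGroup.eq_one_iff g).1 hg1))
  exact final_form (QuotientGroup.mk' Ri) (QuotientGroup.mk'_surjective Ri)
    (FreeBase.freeHyp.qlen Ri) (fun g => FreeBase.freeHyp.qlen_le Ri g) (2 * E0) hlim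

end Pool.Agent.TH63.RD
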