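import Pool.Agent.TH63.RD.Def
import Pool.Agent.TH64.Ost2
import Pool.Agent.TH64.FreeBase

/-!
# Rapid decay: the one step statement used in the assembly (helper63)
-/

set_option autoImplicit false

namespace Pool.Agent.TH63.RD

open Pool.Agent.TH64

/-- hyperbolic groups with control on torsion and on rapid decay -/
structure Lev {G : Type} [Group G] (H : Hyp G) (E : ℝ) : Prop where
  odd : ∀ a : G, IsOfFinOrder a → Odd (orderOf a)
  com : ∀ a g : G, a ≠ 1 → IsOfFinOrder a → a * g = g * a → IsOfFinOrder g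
  rd : ∀ r : ℕ, RDB H.len r (E * (1 + r) ^ 7)

/-- the one step statement -/
def StepG : Prop :=
  ∀ (G : Type) [Group G] (H : Hyp G) (E E' : ℝ), 1 ≤ E → E < E' → Lev H E →
    ∀ γ : G, ¬ IsOfFinOrder γ → ∃ x : G, (∃ j : ℤ, x ^ j = γ) ∧
      ∃ N0 : ℕ, ∀ N ≥ N0, Odd N →
        ∃ H' : Hyp (G ⧸ Subgroup.normalClosure ({x ^ N} : Set G)),
          (∀ q, H'.len q = H.qlen (Subgroup.normalClosure ({x ^ N} : Set G)) q) ∧ Lev H' E'

end Pool.Agent.TH63.RD
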