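import Pool.Agent.TH64.Ost
import Pool.Agent.TH63.RD.Def
import Pool.Agent.TH31.RDStar
import Pool.Agent.TH31.RDNear

/-!
# The bigon lemma (helper63)
-/

set_option autoImplicit false

namespace Pool.Agent.TH63.RD

open Pool.Agent.TH64 Pool.Agent.TH31.RD

variable {G : Type*} [Group G] {H : Hyp G} {x : G}

/-- all the lines are crossed by at most `B / 4` between `p` and `q` -/
def Adm (A : Ax H x) (B : ℤ) (p q : G) : Prop := ∀ w : G, 4 * |A.s w p q| ≤ B

theorem Adm.mul {A : Ax H x} {B : ℤ} {p q : G} (h : Adm A B p q) (g : G) :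
    Adm A B (g * p) (g * q) := by
  intro w
  have := h (g⁻¹ * w)
  have h2 := A.s_mul g (g⁻¹ * w) p q
  rw [mul_inv_cancel_left] at h2
  rwa [h2]

theorem Adm.mono {A : Ax H x} {B B' : ℤ} {p q : G} (h : Adm A B p q) (hB : B ≤ B') :
    Adm A B' p q := fun w => (h w).trans hB

theorem len_zpow_le' (H : Hyp G) (x : G) (k : ℤ) (m : ℕ) (h : |k| ≤ m) :
    H.len (x ^ k) ≤ m * H.len x := Close.len_zpow_le' H x k m h

section

variable (A : Ax H x) (c1 e : ℕ)

/-- monotonicity error -/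
def K0 : ℕ := 2 * (A.c * (5 * A.c) + A.c)
def c12 : ℕ := 2 * A.th * H.len x
def t0 : ℕ := A.c * c12 A + A.c * A.c + A.c
def e1 : ℕ := e + H.D

theorem s_near {a b : G} (u : G) (h : H.d a b ≤ c12 A) : |A.s u a b| ≤ t0 A := by
  have h1 := A.lip_s u a b
  have h2 : (A.c : ℤ) * (H.d a b : ℤ) ≤ A.c * c12 A :=
    mul_le_mul_of_nonneg_left (by exact_mod_cast h) (by positivity)
  unfold t0
  push_cast
  omega

theorem mono2 (u : G) {a b p : G} (h : H.d a p + H.d p b ≤ H.d a b + 2 * A.c) :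
    |A.s u a p| + |A.s u p b| ≤ |A.s u a b| + K0 A := by
  have := A.mono u h
  unfold K0
  push_cast at *
  have e : (A.c : ℤ) * (3 * A.c + 2 * A.c) = A.c * (5 * A.c) := by ring
  rw [e] at this
  omega

theorem bigon_aux (Fl : ℕ) (hFl : ∀ (u m : G) (i j : ℤ), H.d (u * x ^ i) m + H.d m (u * x ^ j) ≤
      H.d (u * x ^ i) (u * x ^ j) + (e1 (H := H) e + e + 2 * A.c + 2 * H.D) →
        H.d m (A.pr u m) ≤ Fl) (N : ℕ) (M : Subgroup G) (hF : Fill A N M)
    (hstar : ∀ p q p3 n u : G, n ∈ M →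
      (∀ w, 4 * |A.s w p q| ≤ 3 * N + c1) → (∀ w, 4 * |A.s w p3 (n * q)| ≤ 3 * N + c1) →
      A.c < |A.s u p q| → A.c < |A.s u p3 (n * q)| → |A.s u q (n * q)| + 12 * A.th < N →
      |A.s u q (n * q)| ≤ 2 * A.th)
    (hN : 400 * (A.th + t0 A + c1 + K0 A + A.c * (c12 A + A.c) + A.c + 1) ≤ N) (p q : G)
    (hpq : Adm A (3 * N + c1) p q) :
    ∀ (k : ℕ) (p' m' n' a b : G), n' ∈ M → Adm A (3 * N + c1) p' (n' * q) →
      H.d p' m' + H.d m' (n' * q) ≤ H.d p' (n' * q) + e →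
      H.d p a + H.d a q ≤ H.d p q + 2 * A.c →
      H.d p' b + H.d b (n' * q) ≤ H.d p' (n' * q) + 2 * A.c →
      H.d a b ≤ c12 A → H.d b m' + H.d m' (n' * q) ≤ H.d b (n' * q) + e1 (H := H) e →
      H.d q (n' * q) ≤ k →
      ∃ t ∈ M, (H.d p (t * m') + H.d (t * m') q ≤ H.d p q +
          (3 * A.c + 2 * c12 A + e1 (H := H) e + H.D + 2 * (t0 A * H.len x))) ∨
        (∃ u : G, N ≤ 5 * |A.s u p q| ∧ H.d (t * m') (A.pr u (t * m')) ≤ Fl) := by
  intro k
  induction k using Nat.strong_induction_on with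
  | _ k ih =>
  intro p' m' n' a b hn' hadm' hm ha hb hab hbm hk
  have hNz : (400 * (A.th + t0 A + c1 + K0 A + A.c * (c12 A + A.c) + A.c + 1) : ℤ) ≤ N := by
    exact_mod_cast hN
  have hpos1 : (0 : ℤ) ≤ A.c * (c12 A + A.c) := by positivity
  have hc12 : (2 * A.th * H.len x : ℕ) = c12 A := rfl
  by_cases hn1 : n' = 1
  · -- the same endpoint
    subst hn1
    rw [one_mul] at *
    refine ⟨1, M.one_mem, Or.inl ?_⟩
    rw [one_mul]
    have t1 := H.d_tri p a m'
    have t2 := H.d_tri a b m'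
    have t3 := H.d_tri b a q
    rw [H.d_comm b a] at t3
    omega
  obtain ⟨u, hu⟩ := hF.gr n' hn' hn1 q
  set q' := n' * q with hq'
  have hsab := s_near A u hab
  have m1 := mono2 A u ha
  have m2 := mono2 A u hb
  have hα := hpq u
  have hβ := hadm' u
  have hadd1 := A.s_add u q a b
  have hadd2 := A.s_add u q b q'
  have hsym := A.s_symm u a q
  have habs1 : |A.s u q q'| ≤ |A.s u a q| + |A.s u a b| + |A.s u b q'| := by
    rw [← hadd2, ← hadd1, hsym]
    calc |-A.s u a q + A.s u a b + A.s u b q'| ≤ |-A.s u a q + A.s u a b| + |A.s u b q'| :=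
          abs_add_le _ _
      _ ≤ |-A.s u a q| + |A.s u a b| + |A.s u b q'| := by gcongr; exact abs_add_le _ _
      _ = _ := by rw [abs_neg]
  have hp1 := abs_nonneg (A.s u p a)
  have hp2 := abs_nonneg (A.s u p' b)
  have hc1 : (A.c : ℤ) < |A.s u a q| := by omega
  have hc2 : (A.c : ℤ) < |A.s u b q'| := by omega
  have hc3 : (A.c : ℤ) < |A.s u p q| := by omega
  have hc4 : (A.c : ℤ) < |A.s u p' q'| := by omega
  have hN5 : (N : ℤ) ≤ 5 * |A.s u p q| := by omega
  -- the last point of the line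
  have hY := A.pr_between' u p' q' hc4
  have fY := H.fp m' (A.pr u q') p' q'
  rw [H.d_comm m' p'] at fY
  by_cases hB : H.d m' (A.pr u q') + H.d p' q' ≤ H.d p' m' + H.d (A.pr u q') q' + H.D
  · -- case B: rotate
    obtain ⟨σ, hσ⟩ : ∃ σ : ℤ, |A.s u q q' + N * σ| = |(|A.s u q q'| - N)| := by
      rcases abs_cases (A.s u q q') with ⟨h, h'⟩ | ⟨h, h'⟩
      · exact ⟨-1, by rw [h]; congr 1; ring⟩
      · refine ⟨1, ?_⟩
        rw [h, ← abs_neg]
        congr 1
        ring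
    set ρ := PAx.rt x u (N * σ) with hρ
    have hρM : ρ ∈ M := hF.rot u σ
    have e1' : ρ * q' = (ρ * n') * q := by rw [hq', mul_assoc]
    have hs1 : A.s u (ρ * p') (ρ * q') = A.s u p' q' := by
      rw [hρ, A.s_rt_left, A.s_rt_right]
      ring
    have hs2 : A.s u q (ρ * q') = A.s u q q' + N * σ := by
      rw [hρ, A.s_rt_right]
    have habs2 : |A.s u q (ρ * q')| + 12 * A.th < N := by
      rw [hs2, hσ]
      rcases abs_cases (|A.s u q q'| - (N : ℤ)) with ⟨h, h'⟩ | ⟨h, h'⟩ <;> omega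
    have hst := hstar p q (ρ * p') (ρ * n') u (M.mul_mem hρM hn') hpq (by
      rw [← e1']
      exact hadm'.mul ρ) hc3 (by rw [← e1', hs1]; exact hc4) (by rw [← e1']; exact habs2)
    rw [← e1'] at hst
    have hL : H.len (x ^ A.s u q (ρ * q')) ≤ c12 A := by
      rw [← hc12]
      refine len_zpow_le' H x _ _ ?_
      push_cast
      exact hst
    have hdec : H.d q (ρ * q') < H.d q q' := by
      have h1 := A.d_le_pr u q (ρ * q')
      rw [hρ, A.d_rt_pr, ← hρ] at h1
      have h2 := A.proj_pr u q q' (by omega)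
      have h3 : c12 A + A.c < H.len (x ^ A.s u q q') := A.len_ge (by
        push_cast
        omega)
      omega
    obtain ⟨t, ht, hcon⟩ := ih (H.d q (ρ * q')) (by omega) (ρ * p') (ρ * m') (ρ * n')
      (A.pr u q) (A.pr u (ρ * q')) (M.mul_mem hρM hn') (by
        rw [← e1']
        exact hadm'.mul ρ) (by
        rw [← e1', H.d_mul, H.d_mul, H.d_mul]
        exact hm) (by
        have := A.pr_between' u p q hc3
        omega) (by
        rw [← e1']
        have := A.pr_between' u (ρ * p') (ρ * q') (by rw [hs1]; exact hc4)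
        omega) (by
        rw [A.d_pr_pr]
        exact hL) (by
        rw [← e1', hρ, A.rt_mul_pr, ← hρ, H.d_mul, H.d_mul, H.d_mul, H.d_comm (A.pr u q') m']
        unfold e1
        omega) (by rw [← e1'])
    refine ⟨t * ρ, M.mul_mem ht hρM, ?_⟩
    rw [mul_assoc]
    exact hcon
  -- `m'` is before the last point
  have hY2 : H.d p' m' + H.d m' (A.pr u q') ≤ H.d p' (A.pr u q') + e + H.D := by
    rw [H.d_comm (A.pr u q') p'] at fY
    omega
  have hX := A.pr_between u b q' hc2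
  have fX := H.fp m' (A.pr u b) b q'
  rw [H.d_comm m' b, H.d_comm (A.pr u b) b] at fX
  refine ⟨1, M.one_mem, ?_⟩
  rw [one_mul]
  by_cases hC : H.d m' (A.pr u b) + H.d b q' ≤ H.d b m' + H.d (A.pr u b) q' + H.D
  · -- case A: near the line
    right
    refine ⟨u, hN5, ?_⟩
    apply hFl u m' (A.κ (u⁻¹ * b)) (A.κ (u⁻¹ * q'))
    have eX : u * x ^ A.κ (u⁻¹ * b) = A.pr u b := rfl
    have eY : u * x ^ A.κ (u⁻¹ * q') = A.pr u q' := rfl
    rw [eX, eY]
    have t1 := H.d_tri (A.pr u b) (A.pr u q') q'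
    have t2 := H.d_comm (A.pr u b) m'
    have t3 := H.d_tri p' m' q'
    unfold e1
    unfold e1 at hbm
    omega
  · -- case C: near the beginning
    left
    have hXX : H.d (A.pr u a) (A.pr u b) ≤ t0 A * H.len x := by
      rw [A.d_pr_pr]
      exact len_zpow_le' H x _ _ hsab
    have hX' := A.pr_between u a q hc1
    have t1 := H.d_tri p a m'
    have t2 := H.d_tri a b m'
    have t3 := H.d_tri m' (A.pr u b) q
    have t4 := H.d_tri (A.pr u b) (A.pr u a) q
    have t5 := H.d_tri b a (A.pr u b)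
    have t6 := H.d_tri a (A.pr u a) (A.pr u b)
    rw [H.d_comm (A.pr u b) (A.pr u a)] at t4
    rw [H.d_comm b a] at t5
    omega

end

/-- **the bigon lemma** -/
theorem bigon (A : Ax H x) (c1 e : ℕ) : ∃ F N0 : ℕ, ∀ N ≥ N0, ∀ (M : Subgroup G),
    Fill A N M → ∀ p q n m : G, n ∈ M → Adm A (3 * N + c1) p q → Adm A (3 * N + c1) p (n * q) →
      H.d p m + H.d m (n * q) ≤ H.d p (n * q) + e →
      ∃ t ∈ M, (H.d p (t * m) + H.d (t * m) q ≤ H.d p q + F) ∨
        (∃ u : G, N ≤ 5 * |A.s u p q| ∧ H.d (t * m) (A.pr u (t * m)) ≤ F) := by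
  obtain ⟨Fl, hFl⟩ := near_line A.toPAx (e1 (H := H) e + e + 2 * A.c + 2 * H.D)
  obtain ⟨N1, hN1⟩ := star A c1
  refine ⟨Fl + (3 * A.c + 2 * c12 A + e1 (H := H) e + H.D + 2 * (t0 A * H.len x)),
    N1 + 400 * (A.th + t0 A + c1 + K0 A + A.c * (c12 A + A.c) + A.c + 1), ?_⟩
  intro N hN M hF p q n m hn h1 h2 h3
  obtain ⟨t, ht, hcon⟩ := bigon_aux A c1 e Fl hFl N M hF
    (hN1 N ((Nat.le_add_right _ _).trans hN) M hF) ((Nat.le_add_left _ _).trans hN) p q h1
    _ p m n p p hn h2 h3 (by rw [H.d_self]; omega) (by rw [H.d_self]; omega)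
    (by rw [H.d_self]; omega) (by unfold e1; omega) le_rfl
  refine ⟨t, ht, ?_⟩
  rcases hcon with hcon | ⟨u, hu, hcon⟩
  · left
    omega
  · right
    exact ⟨u, hu, by omega⟩

end Pool.Agent.TH63.RD
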