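import Pool.Agent.TH63.RD.Count
import Pool.Agent.TH31.RDXpow
import Pool.Agent.TH63.RD.X429.RDCrit

/-!
# Counting centres, and rapid decay of the quotient, uniformly in the exponent (helper63)
-/

set_option autoImplicit false

namespace Pool.Agent.TH63.RD

open Pool.Agent.TH64 Pool.Agent.TH31.RD Pool.Agent.TH63.RD.X429.RDCrit

theorem ar1 (k B : ℕ) : k + B + 1 ≤ (B + 1) * (k + 1) ^ 2 := by
  have h : k + 1 ≤ (k + 1) ^ 2 := by nlinarith
  calc k + B + 1 ≤ (B + 1) * (k + 1) := by nlinarith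
    _ ≤ _ := Nat.mul_le_mul_left _ h

theorem ar2 (k F C D : ℕ) : 3 * (k + F) + C + D + 1 ≤ (3 * F + C + D + 4) * (k + 1) := by
  nlinarith [Nat.zero_le (k * F), Nat.zero_le (k * C), Nat.zero_le (k * D)]

theorem ar3 (k F C D E c : ℕ) : 2 * (c * (3 * (k + F) + C + D + (k + F) + E) + c) + 1 ≤
    (2 * (c * (4 * F + C + D + E + 4) + c) + 1) * (k + 1) := by
  have h1 : 3 * (k + F) + C + D + (k + F) + E ≤ (4 * F + C + D + E + 4) * (k + 1) := by
    nlinarith [Nat.zero_le (k * F), Nat.zero_le (k * C), Nat.zero_le (k * D), Nat.zero_le (k * E)]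
  have h2 := Nat.mul_le_mul_left c h1
  have h3 : c ≤ c * (k + 1) := Nat.le_mul_of_pos_right _ (Nat.succ_pos k)
  calc 2 * (c * (3 * (k + F) + C + D + (k + F) + E) + c) + 1
      ≤ 2 * (c * ((4 * F + C + D + E + 4) * (k + 1)) + c * (k + 1)) + (k + 1) := by omega
    _ = _ := by ring

variable {G : Type*} [Group G] {H : Hyp G} {x : G} (A : Ax H x)

/-- **(C2)**: there are few centres -/
theorem c2 (cc e : ℕ) : ∃ C N0 : ℕ, ∀ N ≥ N0, ∀ (M : Subgroup G) [M.Normal], Fill A N M →
    ∀ (q : G ⧸ M) (k : ℕ), ∃ s : Finset (G ⧸ M), s.card ≤ C * (k + 1) ^ 2 ∧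
      ∀ w m : G, (w : G ⧸ M) = q → Adm A (3 * N + cc) 1 w → H.d 1 m + H.d m w ≤ H.d 1 w + e →
        H.qlen M (m : G ⧸ M) ≤ k → (m : G ⧸ M) ∈ s := by
  classical
  obtain ⟨cp, N1, hp⟩ := adm_short A
  obtain ⟨F, N2, hb⟩ := bigon A (cc + cp) e
  obtain ⟨Ca, hCa⟩ := geo_count H F
  obtain ⟨Cb, hCb⟩ := geo_count H A.c
  obtain ⟨Cc, N3, hc3⟩ := c3 A 0 (A.c + 2 * (A.c * H.len x))
  obtain ⟨Cd, N4, hx⟩ := xpow_len A
  -- length bounds
  set K1 : ℕ → ℕ := fun k => 3 * (k + F) + Cc + 2 * (A.c + H.D) with hK1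
  set K2 : ℕ → ℕ := fun k => A.c * (K1 k + (k + F) + Cd) + A.c with hK2
  refine ⟨Ca * (2 * (F + H.D) + 1) + Cb * (3 * F + Cc + 2 * (A.c + H.D) + 4) *
    (2 * (A.c * (4 * F + Cc + 2 * (A.c + H.D) + Cd + 4) + A.c) + 1) * (ball H F).card,
    N1 + N2 + N3 + N4 + 5 * A.c + 5 + (cp + 4 * K0 A + 4 * A.c), ?_⟩
  intro N hN M hM hF q k
  obtain ⟨w0, hw0, hl⟩ := H.qlen_rep M q
  have hl' : H.len w0 = H.qlen M (w0 : G ⧸ M) := by rw [hl, hw0]
  have hadm := hp N (by omega) M hF w0 hl'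
  obtain ⟨s1, hs1, hs1'⟩ := hCa w0 (k + 2 * (F + H.D))
  obtain ⟨s2, hs2, hs2'⟩ := hCb w0 (K1 k)
  refine ⟨s1.image (QuotientGroup.mk : G → G ⧸ M) ∪
    ((s2 ×ˢ Finset.Icc (-(K2 k : ℤ)) (K2 k)) ×ˢ ball H F).image
      (fun p => ((p.1.1 * x ^ p.1.2 * p.2 : G) : G ⧸ M)), ?_, ?_⟩
  · -- the cardinality
    refine (Finset.card_union_le _ _).trans ?_
    have h1 : (s1.image (QuotientGroup.mk : G → G ⧸ M)).card ≤ Ca * (k + 2 * (F + H.D) + 1) :=
      Finset.card_image_le.trans hs1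
    have h2 : (((s2 ×ˢ Finset.Icc (-(K2 k : ℤ)) (K2 k)) ×ˢ ball H F).image
      (fun p => ((p.1.1 * x ^ p.1.2 * p.2 : G) : G ⧸ M))).card ≤
        Cb * (K1 k + 1) * (2 * K2 k + 1) * (ball H F).card := by
      refine Finset.card_image_le.trans ?_
      rw [Finset.card_product, Finset.card_product, Int.card_Icc]
      have h3 : ((K2 k : ℤ) + 1 - -(K2 k : ℤ)).toNat = 2 * K2 k + 1 := by omega
      rw [h3]
      gcongr
    have h3 : k + 2 * (F + H.D) + 1 ≤ (2 * (F + H.D) + 1) * (k + 1) ^ 2 := ar1 _ _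
    have h4 : K1 k + 1 ≤ (3 * F + Cc + 2 * (A.c + H.D) + 4) * (k + 1) := ar2 _ _ _ _
    have h5 : 2 * K2 k + 1 ≤
        (2 * (A.c * (4 * F + Cc + 2 * (A.c + H.D) + Cd + 4) + A.c) + 1) * (k + 1) :=
      ar3 _ _ _ _ _ _
    calc _ ≤ Ca * (k + 2 * (F + H.D) + 1) +
          Cb * (K1 k + 1) * (2 * K2 k + 1) * (ball H F).card := Nat.add_le_add h1 h2
      _ ≤ Ca * ((2 * (F + H.D) + 1) * (k + 1) ^ 2) +
          Cb * ((3 * F + Cc + 2 * (A.c + H.D) + 4) * (k + 1)) *
          ((2 * (A.c * (4 * F + Cc + 2 * (A.c + H.D) + Cd + 4) + A.c) + 1) * (k + 1)) *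
          (ball H F).card := by gcongr
      _ = _ := by ring
  · intro w m hw hadmw hm hk
    obtain ⟨n, hn, hwn⟩ := Hyp.exists_of_coe_eq M (hw0.trans hw.symm)
    obtain ⟨t, ht, hcon⟩ := hb N (by omega) M hF 1 w0 n m hn
      (hadm.mono (by push_cast; omega)) (by
        rw [← hwn]
        exact hadmw.mono (by push_cast; omega)) (by rw [← hwn]; exact hm)
    rw [Finset.mem_union]
    rcases hcon with hcon | ⟨u, hu, hcon⟩
    · left
      rw [Finset.mem_image]
      refine ⟨t * m, ?_, Hyp.coe_mul_left M ht m⟩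
      apply hs1' _ hcon
      have := short_near H M hl' hcon
      rw [Hyp.coe_mul_left M ht] at this
      omega
    · right
      rw [Finset.mem_image]
      obtain ⟨i, hi⟩ := exists_res (show 0 < N by omega) (A.s u 1 (t * m))
      set ρ := PAx.rt x u (N * i) with hρ
      have hρM : ρ ∈ M := hF.rot u i
      set y := ρ * (t * m) with hy
      have hyM : (y : G ⧸ M) = (m : G ⧸ M) := by
        rw [hy, Hyp.coe_mul_left M hρM, Hyp.coe_mul_left M ht]
      set j := A.s u 1 y with hj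
      have hjN : 2 * |j| ≤ N := by
        rw [hj, hy, hρ, A.s_rt_right]
        exact hi
      set a := A.pr u 1 with ha
      set v := A.pr u y with hv
      have hvy : H.d v y ≤ F := by
        rw [H.d_comm, hv, hy, hρ, A.d_rt_pr]
        exact hcon
      have hav : v = a * x ^ j := by
        rw [hv, ha, hj]
        unfold PAx.pr PAx.s
        rw [mul_assoc, ← zpow_add]
        congr 2
        ring
      have hsv : A.s u 1 v = j := by
        rw [hv, A.s_pr_right]
      -- `a` is near the shortest path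
      have ha1 := A.pr_between u 1 w0 (by omega)
      rw [← ha] at ha1
      -- `v` is admissible
      have hadmv : Adm A (3 * N + (0 : ℕ)) 1 v := by
        intro z
        by_cases hz : u⁻¹ * z ∈ Subgroup.zpowers x
        · obtain ⟨l, hl⟩ := hz
          have hz' : z = u * x ^ l := by
            have : x ^ l = u⁻¹ * z := hl
            rw [this, mul_inv_cancel_left]
          rw [hz', A.s_base, hsv]
          push_cast
          omega
        · have h1 := A.s_add z 1 a v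
          have h2 : |A.s z a v| ≤ A.c := by
            have hz' : z⁻¹ * u ∉ Subgroup.zpowers x := by
              intro h
              apply hz
              have := (Subgroup.zpowers x).inv_mem h
              rwa [mul_inv_rev, inv_inv] at this
            exact A.ov_s hz' _ _
          have h3 := mono2 A z (a := 1) (b := w0) (p := a) (by omega)
          have h4 := hadm z
          have h5 := abs_nonneg (A.s z a w0)
          have h6 : |A.s z 1 v| ≤ |A.s z 1 a| + |A.s z a v| := by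
            rw [← h1]
            exact abs_add_le _ _
          have hNz : ((N1 + N2 + N3 + N4 + 5 * A.c + 5 + (cp + 4 * K0 A + 4 * A.c) : ℕ) : ℤ) ≤ N := by
            exact_mod_cast hN
          push_cast at hNz ⊢
          omega
      have hL : H.d a v = H.len (x ^ j) := by
        unfold Hyp.d
        rw [hav, inv_mul_cancel_left]
      have hexc : H.d 1 a + H.d a v ≤ H.d 1 v + (A.c + 2 * (A.c * H.len x)) := by
        by_cases hjc : (A.c : ℤ) < |j|
        · have := A.pr_between u 1 v (by rw [hsv]; exact hjc)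
          rw [← ha] at this
          omega
        · push Not at hjc
          have h1 := len_zpow_le' H x j A.c hjc
          have h2 := H.d_tri 1 v a
          rw [H.d_comm v a] at h2
          omega
      have hq1 := hc3 N (by omega) M hF v a hadmv hexc
      have hq2 : H.qlen M (v : G ⧸ M) ≤ k + F := by
        have h2 := H.qlen_mul M (y : G ⧸ M) ((y⁻¹ * v : G) : G ⧸ M)
        have h3 := H.qlen_le M (y⁻¹ * v)
        rw [← QuotientGroup.mk_mul, mul_inv_cancel_left, hyM] at h2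
        have h4 : H.len (y⁻¹ * v) ≤ F := by
          have : H.d y v ≤ F := by rw [H.d_comm]; exact hvy
          exact this
        omega
      have ha2 := short_near H M hl' ha1
      have ha3 : H.len a ≤ K1 k := by
        rw [hK1]
        show _ ≤ 3 * (k + F) + Cc + 2 * (A.c + H.D)
        omega
      have ha4 : a ∈ s2 := hs2' a ha1 ha3
      have hj1 := hx N (by omega) M hF j hjN
      have hj2 : H.qlen M ((x ^ j : G) : G ⧸ M) ≤ K1 k + (k + F) := by
        have h2 := H.qlen_mul M ((a⁻¹ : G) : G ⧸ M) (v : G ⧸ M)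
        have h3 := H.qlen_le M (a⁻¹)
        rw [← QuotientGroup.mk_mul, hav, inv_mul_cancel_left, ← hav] at h2
        rw [H.len_inv] at h3
        omega
      have hj3 : j.natAbs ≤ K2 k := by
        have h1 := A.lin_z j
        have h2 : A.c * H.len (x ^ j) ≤ A.c * (K1 k + (k + F) + Cd) :=
          Nat.mul_le_mul_left _ (by omega)
        rw [hK2]
        show _ ≤ A.c * (K1 k + (k + F) + Cd) + A.c
        omega
      refine ⟨((a, j), v⁻¹ * y), ?_, ?_⟩
      · rw [Finset.mem_product, Finset.mem_product, mem_ball, Finset.mem_Icc]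
        refine ⟨⟨ha4, ?_, ?_⟩, hvy⟩
        · show -(K2 k : ℤ) ≤ j
          omega
        · show j ≤ (K2 k : ℤ)
          omega
      · show ((a * x ^ j * (v⁻¹ * y) : G) : G ⧸ M) = _
        rw [← hav, mul_inv_cancel_left, hyM]

/-- **rapid decay of the quotient, uniformly in the exponent** -/
theorem rd_unif : ∃ C N0 : ℕ, ∀ N ≥ N0, ∀ (M : Subgroup G) [M.Normal], Fill A N M →
    ∀ r : ℕ, RDB (H.qlen M) r ((C : ℝ) * (1 + r) ^ 6) := by
  obtain ⟨cs, N1, hs⟩ := smin A
  obtain ⟨C2, N2, h2⟩ := c2 A cs (H.D + 2)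
  obtain ⟨C3, N3, h3⟩ := c3 A cs (H.D + 2)
  refine ⟨(C2 * (C3 + 4) ^ 2) ^ 3, N1 + N2 + N3, ?_⟩
  intro N hN M hM hF r
  have key := rd_crit (H.qlen M) (fun q => {μ | ∃ w m : G, (w : G ⧸ M) = q ∧ (m : G ⧸ M) = μ ∧
    Adm A (3 * N + cs) 1 w ∧ H.d 1 m + H.d m w ≤ H.d 1 w + (H.D + 2)}) r (4 * r + C3)
    (C2 * (4 * r + C3 + 1) ^ 2) ?_ ?_ ?_
  · intro f g hf
    refine (key f g hf).trans ?_
    have h4 : ((C2 * (4 * r + C3 + 1) ^ 2 : ℕ) : ℝ) ≤ ((C2 * (C3 + 4) ^ 2 : ℕ) : ℝ) * (1 + r) ^ 2 := by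
      have : C2 * (4 * r + C3 + 1) ^ 2 ≤ C2 * (C3 + 4) ^ 2 * (1 + r) ^ 2 := by
        rw [mul_assoc, ← mul_pow]
        gcongr
        nlinarith
      exact_mod_cast this
    have hsq : ∀ f : MonoidAlgebra ℝ (G ⧸ M), 0 ≤ sq f := fun f =>
      Finset.sum_nonneg (fun _ _ => sq_nonneg _)
    have h5 : ((C2 * (4 * r + C3 + 1) ^ 2 : ℕ) : ℝ) ^ 3 ≤
        (((C2 * (C3 + 4) ^ 2) ^ 3 : ℕ) : ℝ) * (1 + r) ^ 6 := by
      calc _ ≤ (((C2 * (C3 + 4) ^ 2 : ℕ) : ℝ) * (1 + r) ^ 2) ^ 3 := by gcongr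
        _ = _ := by push_cast; ring
    gcongr
    · exact hsq g
    · exact hsq f
  · -- (C1)
    intro h u _
    obtain ⟨a, b, c, ha, hb, hc, hmin⟩ := H.exists_smin M 1 h u
    have haM : a ∈ M := (QuotientGroup.eq_one_iff a).1 ha
    have mu : ∀ m ∈ M, H.d a b + H.d a c ≤ H.d (m * a) b + H.d (m * a) c := by
      intro m hm
      have := hmin (m * a) b c (by rw [Hyp.coe_mul_left M hm, ha]) hb hc
      omega
    have mv : ∀ m ∈ M, H.d a b + H.d b c ≤ H.d a (m * b) + H.d (m * b) c := by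
      intro m hm
      have := hmin a (m * b) c ha (by rw [Hyp.coe_mul_left M hm, hb]) hc
      omega
    have mz : ∀ m ∈ M, H.d a c + H.d b c ≤ H.d a (m * c) + H.d b (m * c) := by
      intro m hm
      have := hmin a b (m * c) ha hb (by rw [Hyp.coe_mul_left M hm, hc])
      omega
    have hsg : ∀ a b e : G, (∀ m ∈ M, H.d a b + H.d a e ≤ H.d (m * a) b + H.d (m * a) e) →
        (∀ m ∈ M, H.d a b + H.d b e ≤ H.d a (m * b) + H.d (m * b) e) →
        Adm A (3 * N + cs) a b := by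
      intro a b e h1 h2 w
      have e1 := hs N (by omega) M hF a b e h1 h2 w
      have e2 := hs N (by omega) M hF b a e (by
        intro m hm
        have := h2 m hm
        rw [H.d_comm b a, H.d_comm (m * b) a]
        exact this) (by
        intro m hm
        have := h1 m hm
        rw [H.d_comm b a, H.d_comm b (m * a)]
        exact this) w
      rw [A.s_symm w a b] at e2
      rcases abs_cases (A.s w a b) with h | h <;> omega
    have gab := hsg a b c mu mv
    have gac := hsg a c b (by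
      intro m hm
      have := mu m hm
      omega) (by
      intro m hm
      have := mz m hm
      rw [H.d_comm c b, H.d_comm (m * c) b]
      omega)
    have gbc := hsg b c a (by
      intro m hm
      have := mv m hm
      rw [H.d_comm b a, H.d_comm (m * b) a]
      omega) (by
      intro m hm
      have := mz m hm
      rw [H.d_comm c a, H.d_comm (m * c) a]
      omega)
    obtain ⟨m, hm1, hm2, hm3⟩ := center H a b c
    have haM' : a⁻¹ ∈ M := M.inv_mem haM
    have e1 : ∀ p, H.d 1 (a⁻¹ * p) = H.d a p := by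
      intro p
      have := H.d_mul a 1 (a⁻¹ * p)
      rw [mul_one, mul_inv_cancel_left] at this
      exact this.symm
    refine ⟨(m : G ⧸ M), ⟨a⁻¹ * b, a⁻¹ * m, ?_, ?_, ?_, ?_⟩, ⟨a⁻¹ * c, a⁻¹ * m, ?_, ?_, ?_, ?_⟩,
      ⟨b⁻¹ * c, b⁻¹ * m, ?_, ?_, ?_, ?_⟩⟩
    · rw [Hyp.coe_mul_left M haM', hb]
    · rw [Hyp.coe_mul_left M haM']
    · have := gab.mul a⁻¹
      rwa [inv_mul_cancel] at this
    · rw [e1, e1, H.d_mul]
      exact hm1
    · rw [Hyp.coe_mul_left M haM', hc]
    · rw [Hyp.coe_mul_left M haM']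
    · have := gac.mul a⁻¹
      rwa [inv_mul_cancel] at this
    · rw [e1, e1, H.d_mul]
      exact hm2
    · rw [QuotientGroup.mk_mul, QuotientGroup.mk_inv, hb, hc]
    · rw [QuotientGroup.mk_mul, QuotientGroup.mk_inv, hb]
    · have := gbc.mul b⁻¹
      rwa [inv_mul_cancel] at this
    · have e2 : ∀ p, H.d 1 (b⁻¹ * p) = H.d b p := by
        intro p
        have := H.d_mul b 1 (b⁻¹ * p)
        rw [mul_one, mul_inv_cancel_left] at this
        exact this.symm
      rw [e2, e2, H.d_mul]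
      exact hm3
  · -- (C2)
    intro q
    obtain ⟨s, hs, hs'⟩ := h2 N (by omega) M hF q (4 * r + C3)
    refine ⟨s, hs, ?_⟩
    rintro μ ⟨w, m, hw, rfl, hadm, hm⟩ hk
    exact hs' w m hw hadm hm hk
  · -- (C3)
    rintro h μ hh ⟨w, m, rfl, rfl, hadm, hm⟩
    have h4 := h3 N (by omega) M hF w m hadm hm
    have h5 := H.qlen_mul M (w : G ⧸ M)⁻¹ (m : G ⧸ M)
    rw [H.qlen_inv] at h5
    constructor <;> omega

end Pool.Agent.TH63.RD
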