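import Pool.Agent.TH63.RD.Bigon

/-!
# Counting points near shortest paths (helper63)
-/

set_option autoImplicit false

namespace Pool.Agent.TH63.RD

open Pool.Agent.TH64

variable {G : Type*} [Group G]

/-- the centre of a triangle -/
theorem center (H : Hyp G) (u v w : G) : ∃ m, H.d u m + H.d m v ≤ H.d u v + (H.D + 2) ∧
    H.d u m + H.d m w ≤ H.d u w + (H.D + 2) ∧ H.d v m + H.d m w ≤ H.d v w + (H.D + 2) := by
  have t1 := H.d_tri w u v
  have t2 := H.d_tri u w v
  have t3 := H.d_tri w v u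
  have c1 := H.d_comm w u
  have c2 := H.d_comm w v
  have c3 := H.d_comm v u
  obtain ⟨p, hp1, hp2⟩ := H.between u v ((H.d w u + H.d u v - H.d w v) / 2) (by omega)
  have h1 := H.fp w p u v
  have c4 := H.d_comm p w
  have c5 := H.d_comm p v
  have c6 := H.d_comm p u
  refine ⟨p, by omega, by omega, by omega⟩

/-- the ball as a finset -/
noncomputable def ball (H : Hyp G) (n : ℕ) : Finset G := (H.fin n).toFinset

theorem mem_ball (H : Hyp G) (n : ℕ) (g : G) : g ∈ ball H n ↔ H.len g ≤ n := by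
  unfold ball
  rw [Set.Finite.mem_toFinset]
  rfl

/-- points near a geodesic are few -/
theorem geo_count (H : Hyp G) (e : ℕ) : ∃ C : ℕ, ∀ (w0 : G) (k : ℕ), ∃ s : Finset G,
    s.card ≤ C * (k + 1) ∧ ∀ y, H.d 1 y + H.d y w0 ≤ H.d 1 w0 + e → H.len y ≤ k → y ∈ s := by
  classical
  refine ⟨(ball H (e + H.D)).card, ?_⟩
  intro w0 k
  obtain ⟨σ, h0, hn, hg⟩ := H.exists_geo 1 w0
  refine ⟨((Finset.range (k + 1)) ×ˢ (ball H (e + H.D))).image
    (fun p => σ (min p.1 (H.d 1 w0)) * p.2), ?_, ?_⟩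
  · refine Finset.card_image_le.trans ?_
    rw [Finset.card_product, Finset.card_range, mul_comm]
  · intro y hy hk
    rw [Finset.mem_image]
    set i := min (H.len y) (H.d 1 w0) with hi
    have hin : i ≤ H.d 1 w0 := min_le_right _ _
    have g1 := hg 0 i (Nat.zero_le _) hin
    have g2 := hg i _ hin le_rfl
    rw [h0] at g1
    rw [hn] at g2
    have hl : H.d 1 y = H.len y := H.d_one y
    have h2 : H.d (σ i) y ≤ e + H.D := by
      apply H.almost hy (by omega)
      rcases le_or_gt (H.len y) (H.d 1 w0) with h | h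
      · left
        rw [min_eq_left h] at hi
        omega
      · right
        rw [min_eq_right h.le] at hi
        refine ⟨by omega, ?_⟩
        rw [hi, hn]
    refine ⟨(H.len y, (σ i)⁻¹ * y), ?_, ?_⟩
    · rw [Finset.mem_product, Finset.mem_range, mem_ball]
      exact ⟨by simpa using Nat.lt_succ_of_le hk, h2⟩
    · show σ i * ((σ i)⁻¹ * y) = y
      rw [mul_inv_cancel_left]

/-- points near a shortest path have almost minimal length -/
theorem short_near (H : Hyp G) (M : Subgroup G) [M.Normal] {w0 : G} {e : ℕ}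
    (h : H.len w0 = H.qlen M (w0 : G ⧸ M)) {y : G} (hy : H.d 1 y + H.d y w0 ≤ H.d 1 w0 + e) :
    H.len y ≤ H.qlen M (y : G ⧸ M) + 2 * (e + H.D) := by
  obtain ⟨P, hP1, hP2⟩ := Close.near_pt H hy
  rw [H.d_one, H.d_one] at hP1
  have h1 : H.qlen M (w0 : G ⧸ M) ≤ H.qlen M (P : G ⧸ M) + H.d P w0 := by
    have h2 := H.qlen_mul M (P : G ⧸ M) ((P⁻¹ * w0 : G) : G ⧸ M)
    have h3 := H.qlen_le M (P⁻¹ * w0)
    rw [← QuotientGroup.mk_mul, mul_inv_cancel_left] at h2
    exact h2.trans (Nat.add_le_add_left h3 _)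
  have h2 : H.qlen M (P : G ⧸ M) ≤ H.qlen M (y : G ⧸ M) + H.d P y := by
    have h2 := H.qlen_mul M (y : G ⧸ M) ((y⁻¹ * P : G) : G ⧸ M)
    have h3 := H.qlen_le M (y⁻¹ * P)
    rw [← QuotientGroup.mk_mul, mul_inv_cancel_left] at h2
    rw [H.d_comm P y]
    exact h2.trans (Nat.add_le_add_left h3 _)
  have h3 := H.d_tri 1 P y
  rw [H.d_one, H.d_one] at h3
  omega

theorem exists_res {N : ℕ} (hN : 0 < N) (s : ℤ) : ∃ k : ℤ, 2 * |s + N * k| ≤ N := by
  refine ⟨-((2 * s + N) / (2 * N)), ?_⟩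
  have h1 := Int.emod_nonneg (2 * s + N) (show (2 * N : ℤ) ≠ 0 by omega)
  have h2 := Int.emod_lt_of_pos (2 * s + N) (show (0 : ℤ) < 2 * N by omega)
  have h3 := Int.emod_add_mul_ediv (2 * s + N) (2 * N)
  have h4 : (2 : ℤ) * N * ((2 * s + N) / (2 * N)) = 2 * (N * ((2 * s + N) / (2 * N))) := by ring
  rw [h4] at h3
  rw [mul_neg, ← sub_eq_add_neg]
  rcases abs_cases (s - N * ((2 * s + N) / (2 * N))) with h | h <;> omega

variable {H : Hyp G} {x : G} (A : Ax H x)

/-- shortest lifts are admissible -/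
theorem adm_short : ∃ cp N0 : ℕ, ∀ N ≥ N0, ∀ (M : Subgroup G) [M.Normal], Fill A N M → ∀ w : G,
    H.len w = H.qlen M (w : G ⧸ M) → Adm A (2 * N + cp) 1 w := by
  obtain ⟨cp, N1, hp⟩ := pmin A
  refine ⟨2 * cp, N1, ?_⟩
  intro N hN M hM hF w hw v
  have := hp N hN M hF 1 w (by
    intro m hm
    rw [H.d_one, H.d_one, hw]
    have := H.qlen_le M (m * w)
    rwa [Hyp.coe_mul_left M hm] at this) v
  push_cast
  omega

/-- **(C3)**: centres of short elements are short -/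
theorem c3 (c1 e : ℕ) : ∃ C N0 : ℕ, ∀ N ≥ N0, ∀ (M : Subgroup G) [M.Normal], Fill A N M →
    ∀ w m : G, Adm A (3 * N + c1) 1 w → H.d 1 m + H.d m w ≤ H.d 1 w + e →
      H.qlen M (m : G ⧸ M) ≤ 3 * H.qlen M (w : G ⧸ M) + C := by
  obtain ⟨cp, N1, hp⟩ := adm_short A
  obtain ⟨F, N2, hb⟩ := bigon A (c1 + cp) e
  refine ⟨F + 4 * A.c, N1 + N2 + 5 * A.c + 5, ?_⟩
  intro N hN M hM hF w m hw hm
  obtain ⟨g, hg, hl⟩ := H.qlen_rep M (w : G ⧸ M)
  obtain ⟨n, hn, hwn⟩ := Hyp.exists_of_coe_eq M hg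
  have hadm := hp N (by omega) M hF g (by rw [hl, hg])
  obtain ⟨t, ht, hcon⟩ := hb N (by omega) M hF 1 g n m hn
    (hadm.mono (by push_cast; omega)) (by
      rw [← hwn]
      exact hw.mono (by push_cast; omega)) (by rw [← hwn]; exact hm)
  rw [← hl]
  rcases hcon with hcon | ⟨u, hu, hcon⟩
  · have h1 := H.qlen_le M (t * m)
    rw [Hyp.coe_mul_left M ht] at h1
    rw [H.d_one, H.d_one] at hcon
    omega
  · obtain ⟨k, hk⟩ := exists_res (show 0 < N by omega) (A.s u 1 (t * m))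
    set ρ := PAx.rt x u (N * k) with hρ
    have hρM : ρ ∈ M := hF.rot u k
    have h1 := H.qlen_le M (ρ * (t * m))
    rw [Hyp.coe_mul_left M hρM, Hyp.coe_mul_left M ht] at h1
    have h2 := A.d_le_pr u 1 (ρ * (t * m))
    rw [hρ, A.d_rt_pr, A.s_rt_right, ← hρ] at h2
    have h3 := A.proj_pr u 1 g (by omega)
    have h4 : H.len (x ^ (A.s u 1 (t * m) + N * k)) ≤ 3 * H.len (x ^ A.s u 1 g) + A.c := by
      have h5 := A.len_mono (i := A.s u 1 (t * m) + N * k) (j := A.s u 1 g + A.s u 1 g + A.s u 1 g)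
        (by
          rw [show A.s u 1 g + A.s u 1 g + A.s u 1 g = 3 * A.s u 1 g by ring, abs_mul]
          rw [show |(3 : ℤ)| = 3 from rfl]
          omega)
      have h6 := PAx.sub_z (H := H) (x := x) (A.s u 1 g + A.s u 1 g) (A.s u 1 g)
      have h7 := PAx.sub_z (H := H) (x := x) (A.s u 1 g) (A.s u 1 g)
      omega
    have h5 := H.d_one g
    have h6 := H.d_one (ρ * (t * m))
    omega

end Pool.Agent.TH63.RD
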