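import Pool.Agent.TH63.RD.C2
import Pool.Agent.TH63.RD.AsmDef
import Pool.Agent.TH63.RD.X429.RDStrong

/-!
# The one step theorem: rapid decay with an almost optimal constant (helper63)
-/

set_option autoImplicit false

namespace Pool.Agent.TH63.RD

open Pool.Agent.TH64 Pool.Agent.TH63.RD.X429.RDStrong Pool.Agent.TH63.RD.X429.RDCrit Filter

theorem sq_nn {G : Type*} [Group G] (f : MonoidAlgebra ℝ G) : 0 ≤ sq f :=
  Finset.sum_nonneg (fun _ _ => sq_nonneg _)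

theorem RDB.mono {G : Type*} [Group G] {ℓ : G → ℕ} {r : ℕ} {K K' : ℝ} (h : RDB ℓ r K)
    (hK : K ≤ K') : RDB ℓ r K' := by
  intro f g hf
  refine (h f g hf).trans ?_
  gcongr
  · exact sq_nn g
  · exact sq_nn f

/-- hyperbolic groups have rapid decay -/
theorem rd_hyp {G : Type*} [Group G] (H : Hyp G) : ∃ E : ℝ, 1 ≤ E ∧
    ∀ r : ℕ, RDB H.len r (E * (1 + r) ^ 7) := by
  obtain ⟨C, hC⟩ := geo_count H (H.D + 2)
  refine ⟨((C * (H.D + 3)) ^ 3 : ℕ) + 1, by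
    have : (0 : ℝ) ≤ ((C * (H.D + 3)) ^ 3 : ℕ) := Nat.cast_nonneg _
    linarith, ?_⟩
  intro r
  have key := rd_crit H.len (fun g => {m | H.d 1 m + H.d m g ≤ H.d 1 g + (H.D + 2)}) r
    (r + (H.D + 2)) (C * (r + (H.D + 2) + 1)) ?_ ?_ ?_
  · refine key.mono ?_
    have h1 : C * (r + (H.D + 2) + 1) ≤ C * (H.D + 3) * (1 + r) := by
      rw [mul_assoc]
      gcongr
      nlinarith
    have h2 : ((C * (r + (H.D + 2) + 1) : ℕ) : ℝ) ≤ ((C * (H.D + 3) : ℕ) : ℝ) * (1 + r) := by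
      exact_mod_cast h1
    have h3 : (1 : ℝ) ≤ 1 + r := by
      have : (0 : ℝ) ≤ r := Nat.cast_nonneg r
      linarith
    calc ((C * (r + (H.D + 2) + 1) : ℕ) : ℝ) ^ 3 ≤ (((C * (H.D + 3) : ℕ) : ℝ) * (1 + r)) ^ 3 := by
          gcongr
      _ = (((C * (H.D + 3)) ^ 3 : ℕ) : ℝ) * (1 + r) ^ 3 := by push_cast; ring
      _ ≤ (((C * (H.D + 3)) ^ 3 : ℕ) + 1 : ℝ) * (1 + r) ^ 7 := by
          gcongr
          · linarith
          · norm_num
  · intro h u _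
    obtain ⟨m, h1, h2, h3⟩ := center H 1 h u
    refine ⟨m, h1, h2, ?_⟩
    have e2 : ∀ p, H.d 1 (h⁻¹ * p) = H.d h p := by
      intro p
      have := H.d_mul h 1 (h⁻¹ * p)
      rw [mul_one, mul_inv_cancel_left] at this
      exact this.symm
    show H.d 1 (h⁻¹ * m) + H.d (h⁻¹ * m) (h⁻¹ * u) ≤ H.d 1 (h⁻¹ * u) + (H.D + 2)
    rw [e2, e2, H.d_mul]
    exact h3
  · intro u
    obtain ⟨s, hs, hs'⟩ := hC u (r + (H.D + 2))
    exact ⟨s, hs, fun m hm hk => hs' m hm hk⟩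
  · intro h m hh hm
    have hm' : H.d 1 m + H.d m h ≤ H.d 1 h + (H.D + 2) := hm
    have h1 := H.d_one m
    have h2 := H.d_one h
    have h3 := H.d_comm m h
    have h4 : H.d h m = H.len (h⁻¹ * m) := rfl
    constructor <;> omega

/-- polynomial growth against exponential growth -/
theorem exists_pow (C : ℕ) (q : ℝ) (hq : 1 < q) : ∃ j : ℕ,
    (C : ℝ) * (1 + ((2 ^ j * (2 * C) : ℕ) : ℝ)) ^ 6 ≤ q ^ (2 * 2 ^ j) := by
  have h1 := tendsto_pow_const_div_const_pow_of_one_lt 6 hq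
  have h2 : Tendsto (fun j : ℕ => 2 ^ j) atTop atTop :=
    tendsto_pow_atTop_atTop_of_one_lt (by norm_num : 1 < 2)
  have h3 := h1.comp h2
  set B : ℝ := C * (1 + 2 * C) ^ 6 + 1 with hB
  have hBpos : 0 < B := by positivity
  have h4 := h3.eventually (gt_mem_nhds (show (0 : ℝ) < 1 / B by positivity))
  obtain ⟨j, hj⟩ := h4.exists
  refine ⟨j, ?_⟩
  set n : ℕ := 2 ^ j with hn
  have hn1 : (1 : ℝ) ≤ n := by exact_mod_cast Nat.one_le_two_pow
  have hj' : (n : ℝ) ^ 6 / q ^ n < 1 / B := hj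
  have hqn : (0 : ℝ) < q ^ n := by positivity
  rw [div_lt_div_iff₀ hqn hBpos] at hj'
  have h5 : (1 + ((n * (2 * C) : ℕ) : ℝ)) ≤ (1 + 2 * C) * n := by
    push_cast
    nlinarith [Nat.cast_nonneg (α := ℝ) C]
  have h6 : q ^ n ≤ q ^ (2 * n) := pow_le_pow_right₀ hq.le (by omega)
  calc (C : ℝ) * (1 + ((n * (2 * C) : ℕ) : ℝ)) ^ 6
      ≤ (C : ℝ) * ((1 + 2 * (C : ℝ)) * (n : ℝ)) ^ 6 := by gcongr
    _ = (C : ℝ) * (1 + 2 * (C : ℝ)) ^ 6 * (n : ℝ) ^ 6 := by ring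
    _ ≤ (n : ℝ) ^ 6 * B := by
        rw [hB]
        have : (0 : ℝ) ≤ (n : ℝ) ^ 6 := by positivity
        nlinarith
    _ ≤ 1 * q ^ n := hj'.le
    _ ≤ q ^ (2 * n) := by rw [one_mul]; exact h6

/-- the rapid decay constant hardly changes for large exponents -/
theorem rd_step {G : Type*} [Group G] {H : Hyp G} {x : G} (A : Ax H x) (E E' : ℝ) (hE : 1 ≤ E)
    (hEE : E < E') (hRD : ∀ r : ℕ, RDB H.len r (E * (1 + r) ^ 7)) : ∃ N0 : ℕ, ∀ N ≥ N0,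
    ∀ (M : Subgroup G) [M.Normal], Fill A N M → ∀ r : ℕ, RDB (H.qlen M) r (E' * (1 + r) ^ 7) := by
  obtain ⟨C, N1, h1⟩ := rd_unif A
  have hq : 1 < E' / E := by rw [one_lt_div (by linarith)]; exact hEE
  obtain ⟨j, hj⟩ := exists_pow C (E' / E) hq
  obtain ⟨N2, h2⟩ := inj_small A (2 ^ j * (4 * C))
  refine ⟨N1 + N2, ?_⟩
  intro N hN M hM hF r
  have hr0 : (0 : ℝ) ≤ r := Nat.cast_nonneg r
  have hr1 : (1 : ℝ) ≤ 1 + r := by linarith
  rcases le_or_gt C r with hr | hr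
  · refine (h1 N (by omega) M hF r).mono ?_
    have h3 : (C : ℝ) ≤ 1 + r := by
      have : (C : ℝ) ≤ r := by exact_mod_cast hr
      linarith
    calc (C : ℝ) * (1 + (r : ℝ)) ^ 6 ≤ (1 + (r : ℝ)) * (1 + (r : ℝ)) ^ 6 := by gcongr
      _ = 1 * (1 + (r : ℝ)) ^ 7 := by ring
      _ ≤ E' * (1 + (r : ℝ)) ^ 7 := by
          gcongr
          linarith
  · have hE0 : (0 : ℝ) < E := by linarith
    refine strong_conv (QuotientGroup.mk' M) H.len (H.qlen M) H.len_one H.len_inv H.len_mul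
      (fun g => H.qlen_le M g) ?_ r (E * (1 + r) ^ 7) ?_ (hRD r) j
      ((C : ℝ) * (1 + ((2 ^ j * (2 * r) : ℕ) : ℝ)) ^ 6) ?_ ?_ _ ?_ ?_
    · intro q
      obtain ⟨g, hg, hl⟩ := H.qlen_rep M q
      exact ⟨g, hg, hl.le⟩
    · calc (1 : ℝ) = 1 * 1 ^ 7 := by norm_num
        _ ≤ E * (1 + r) ^ 7 := by gcongr
    · exact h1 N (by omega) M hF _
    · intro g hg hlen
      have hgM : g ∈ M := (QuotientGroup.eq_one_iff g).1 hg
      refine h2 N (by omega) M hF g hgM (hlen.trans ?_)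
      gcongr
    · have : (0 : ℝ) ≤ E' := by linarith
      positivity
    · have hrC : ((2 ^ j * (2 * r) : ℕ) : ℝ) ≤ ((2 ^ j * (2 * C) : ℕ) : ℝ) := by
        have : 2 ^ j * (2 * r) ≤ 2 ^ j * (2 * C) := by gcongr
        exact_mod_cast this
      have h4 : (C : ℝ) * (1 + ((2 ^ j * (2 * r) : ℕ) : ℝ)) ^ 6 ≤ (E' / E) ^ (2 * 2 ^ j) := by
        refine le_trans ?_ hj
        gcongr
      calc (C : ℝ) * (1 + ((2 ^ j * (2 * r) : ℕ) : ℝ)) ^ 6 * (E * (1 + r) ^ 7) ^ (2 * 2 ^ j)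
          ≤ (E' / E) ^ (2 * 2 ^ j) * (E * (1 + r) ^ 7) ^ (2 * 2 ^ j) := by gcongr
        _ = (E' / E * (E * (1 + r) ^ 7)) ^ (2 * 2 ^ j) := by rw [← mul_pow]
        _ = (E' * (1 + r) ^ 7) ^ (2 * 2 ^ j) := by
            congr 1
            field_simp

/-- the quotient is hyperbolic, with the quotient length -/
theorem quot_hyp_len {G : Type*} [Group G] {H : Hyp G} {x : G} (A : Ax H x) : ∃ N0 : ℕ,
    ∀ N ≥ N0, ∀ (M : Subgroup G) [M.Normal], Fill A N M →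
      ∃ H' : Hyp (G ⧸ M), ∀ q, H'.len q = H.qlen M q := by
  obtain ⟨cp, N1, hp⟩ := pmin A
  obtain ⟨cs, N2, hs⟩ := smin A
  obtain ⟨N3, hcl⟩ := close A (cs + 2 * cp + 8 * (A.c * (3 * A.c) + A.c))
  refine ⟨N1 + N2 + N3, ?_⟩
  intro N hN M hM hF
  obtain ⟨CL, hCL⟩ := hcl N (by omega) M hF
  exact ⟨quotHyp H M _ (quot_four A N M _ CL hCL cp cs (hp N (by omega) M hF)
    (hs N (by omega) M hF) le_rfl), fun q => rfl⟩

/-- **the one step theorem** -/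
theorem stepG : StepG := by
  intro G _ H E E' hE hEE hL γ hγ
  obtain ⟨Pγ⟩ := exists_pax' H hγ
  obtain ⟨x, ⟨j, hj⟩, hEx⟩ := TH142.J487.elem H hL.odd hL.com γ Pγ
  have hx : ¬ IsOfFinOrder x := by
    intro h
    apply hγ
    rw [← hj]
    exact h.zpow
  obtain ⟨P⟩ := exists_pax' H hx
  have hj0 : j ≠ 0 := by
    rintro rfl
    apply hγ
    rw [← hj, zpow_zero]
    exact IsOfFinOrder.one
  obtain ⟨A⟩ := exists_ax P (by
    intro g hg
    obtain ⟨s, hs, t, ht, hst⟩ := hg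
    apply hEx g
    -- raise to the power `j`
    have h1 : ∀ k : ℤ, g * γ ^ (t * k) * g⁻¹ = γ ^ ((s : ℤ) * k) := by
      intro k
      have h2 : (g * x ^ t * g⁻¹) ^ (j * k) = (x ^ (s : ℤ)) ^ (j * k) := by rw [hst]
      rw [conj_zpow, ← zpow_mul, ← zpow_mul] at h2
      rw [← hj, ← zpow_mul, ← zpow_mul]
      rw [show j * (t * k) = t * (j * k) by ring, show j * (s * k) = s * (j * k) by ring]
      exact h2
    have h2 := h1 1
    rw [mul_one, mul_one] at h2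
    exact ⟨s, hs, t, ht, h2⟩)
  refine ⟨x, ⟨j, hj⟩, ?_⟩
  obtain ⟨N1, h1⟩ := nice_quot A hL.com hL.odd
  obtain ⟨N2, h2⟩ := quot_hyp_len A
  obtain ⟨N3, h3⟩ := rd_step A E E' hE hEE hL.rd
  refine ⟨N1 + N2 + N3 + (40 * A.th + 1), ?_⟩
  intro N hN hodd
  have hF := fill_normalClosure A N (by omega)
  have hnice := h1 N (by omega) hodd _ hF
  obtain ⟨H', hH'⟩ := h2 N (by omega) _ hF
  refine ⟨H', hH', hnice.odd, hnice.com, ?_⟩
  intro r
  have h4 := h3 N (by omega) _ hF r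
  have h5 : H'.len = H.qlen (Subgroup.normalClosure ({x ^ N} : Set G)) := funext hH'
  rw [h5]
  exact h4

end Pool.Agent.TH63.RD
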